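import Pool.Agent.K3h23.Tri.Final

set_option autoImplicit false

namespace Pool.Agent.Results.MP_4834b2_nt.TrinomialClassification

open Pool.Agent.K3h23.Tri Finset

/-- Full classification of the trinomials `a x + b σ(x) - σ^d(x)` over a finite field `F` of
characteristic `p`, with `[K : F] = d^2 - 1` and `σ` a generator of `Gal(K/F)`, whose kernel has
the maximal dimension `d`: this happens exactly when `N(a) = (-1)^(d-1)` and either `d` is a power
of `p` and `b = -(∏_{i=1}^{d-1} σ^{id}(a))⁻¹`, or `d` is a prime, `q = |F|` is a primitive root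
modulo `d`, and `b = -M (∏_{i=1}^{d-1} σ^{id}(a))⁻¹` for a primitive `d`-th root of unity
`M` of `K`. In the second case `K` does contain primitive `d`-th roots of unity. -/
theorem result {p : ℕ} [Fact p.Prime] {F K : Type*} [Field F] [Fintype F] [CharP F p] [Field K]
    [Algebra F K] {d : ℕ} (hd : 2 ≤ d) (hn : Module.finrank F K = d ^ 2 - 1) (σ : K ≃ₐ[F] K)
    (hσ : ∀ τ : K ≃ₐ[F] K, τ ∈ Subgroup.zpowers σ) :
    (∀ a b : K,
      Module.finrank F (LinearMap.ker (LinearMap.mulLeft F a +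
        (LinearMap.mulLeft F b).comp σ.toLinearMap - (σ ^ d : K ≃ₐ[F] K).toLinearMap)) = d ↔
      Algebra.norm F a = (-1) ^ (d - 1) ∧
        (((∃ k : ℕ, d = p ^ k) ∧
            b = -(∏ i ∈ Finset.Icc 1 (d - 1), (σ ^ (i * d)) a)⁻¹) ∨
          (d.Prime ∧ orderOf ((Fintype.card F : ℕ) : ZMod d) = d - 1 ∧
            ∃ M : K, IsPrimitiveRoot M d ∧
              b = -M * (∏ i ∈ Finset.Icc 1 (d - 1), (σ ^ (i * d)) a)⁻¹))) ∧
    (d.Prime → orderOf ((Fintype.card F : ℕ) : ZMod d) = d - 1 →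
      ∃ M : K, IsPrimitiveRoot M d) := by
  refine ⟨fun a b => ?_, fun h1 h2 => exists_root (p := p) hd hn h1 h2⟩
  have h := main (p := p) hd hn σ hσ a b
  have hR : R (σ ^ d) d a = ∏ i ∈ Finset.Icc 1 (d - 1), (σ ^ (i * d)) a := by
    rw [R, Finset.range_eq_Ico, ← Finset.Ico_add_one_right_eq_Icc,
      Finset.prod_Ico_add' (fun i => ((σ ^ d) ^ i) a) 0 (d - 1) 1, zero_add]
    apply Finset.prod_congr rfl
    intro i _
    rw [← pow_mul, mul_comm]
  rw [hR] at h
  exact h

end Pool.Agent.Results.MP_4834b2_nt.TrinomialClassification
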